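import Mathlib

set_option autoImplicit false
set_option linter.unusedSectionVars false

namespace Pool.Agent.H.MP_1aa2a2_co
open Finset

variable {V : Type*} [DecidableEq V]

/-- no induced double star with s leaves on each side -/
def Free (G : SimpleGraph V) (s : ℕ) : Prop :=
  ∀ u v, G.Adj u v → ∀ A B : Finset V, A.card = s → B.card = s →
    (∀ x ∈ A, G.Adj u x ∧ ¬ G.Adj v x ∧ x ≠ v) → (∀ y ∈ B, G.Adj v y ∧ ¬ G.Adj u y ∧ y ≠ u) →
    (∀ x ∈ A ∪ B, ∀ y ∈ A ∪ B, ¬ G.Adj x y) → False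

/-- no biclique inside R -/
def NoBi (G : SimpleGraph V) (T : ℕ) (R : Finset V) : Prop :=
  ∀ X Y : Finset V, X ⊆ R → Y ⊆ R → X.card = T → Y.card = T →
    (∀ x ∈ X, ∀ y ∈ Y, G.Adj x y) → False

def L0 (T : ℕ) : ℕ → ℕ
  | 0 => 0
  | s + 1 => T * (T * L0 T s + 2 * T) + 2 * T

variable {G : SimpleGraph V} [DecidableRel G.Adj]

lemma common {T m : ℕ} {R X S : Finset V} (h : NoBi G T R) (hX : X ⊆ R) (hXc : X.card = T)
    (hS : S ⊆ R) (hm : ∀ x ∈ X, (S.filter (fun y => ¬ G.Adj x y)).card ≤ m)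
    (hc : T * m + T ≤ S.card) : False := by
  set Y0 := S.filter (fun y => ∀ x ∈ X, G.Adj x y) with hY0
  have h1 : S ⊆ Y0 ∪ X.biUnion (fun x => S.filter (fun y => ¬ G.Adj x y)) := by
    intro y hy
    by_cases hh : ∀ x ∈ X, G.Adj x y
    · exact mem_union_left _ (mem_filter.2 ⟨hy, hh⟩)
    · push Not at hh
      obtain ⟨x, hx, hxy⟩ := hh
      exact mem_union_right _ (mem_biUnion.2 ⟨x, hx, mem_filter.2 ⟨hy, hxy⟩⟩)
  have h2 : (X.biUnion (fun x => S.filter (fun y => ¬ G.Adj x y))).card ≤ T * m := by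
    calc _ ≤ ∑ x ∈ X, (S.filter (fun y => ¬ G.Adj x y)).card := card_biUnion_le
      _ ≤ ∑ _x ∈ X, m := sum_le_sum hm
      _ = T * m := by simp [hXc]
  have h3 := card_le_card h1
  have h4 := card_union_le Y0 (X.biUnion (fun x => S.filter (fun y => ¬ G.Adj x y)))
  have h5 : T ≤ Y0.card := by omega
  obtain ⟨Y, hY, hYc⟩ := exists_subset_card_eq h5
  refine h X Y hX (fun y hy => hS (mem_filter.1 (hY hy)).1) hXc hYc ?_
  intro x hx y hy
  exact (mem_filter.1 (hY hy)).2 x hx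

lemma card_nadj_le (S : Finset V) (a : V) :
    (S.filter (fun y => ¬ G.Adj a y)).card ≤ (S.filter (fun y => ¬ G.Adj a y ∧ y ≠ a)).card + 1 := by
  have : S.filter (fun y => ¬ G.Adj a y) ⊆ insert a (S.filter (fun y => ¬ G.Adj a y ∧ y ≠ a)) := by
    intro y hy
    by_cases h : y = a
    · simp [h]
    · rw [mem_filter] at hy
      exact mem_insert_of_mem (mem_filter.2 ⟨hy.1, hy.2, h⟩)
  exact (card_le_card this).trans (card_insert_le _ _)

lemma pick {T n : ℕ} {R S1 S2 : Finset V} (h : NoBi G T R) (h1 : S1 ⊆ R) (h2 : S2 ⊆ R)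
    (c1 : T * n + 2 * T ≤ S1.card) (c2 : T * n + 2 * T ≤ S2.card) :
    ∃ a ∈ S1, n ≤ (S1.filter (fun y => ¬ G.Adj a y ∧ y ≠ a)).card ∧
      n ≤ (S2.filter (fun y => ¬ G.Adj a y ∧ y ≠ a)).card := by
  by_contra hc
  push Not at hc
  set P1 := S1.filter (fun a => (S1.filter (fun y => ¬ G.Adj a y ∧ y ≠ a)).card < n) with hP1
  set P2 := S1.filter (fun a => (S2.filter (fun y => ¬ G.Adj a y ∧ y ≠ a)).card < n) with hP2
  have hs : S1 ⊆ P1 ∪ P2 := by
    intro a ha
    by_cases hh : n ≤ (S1.filter (fun y => ¬ G.Adj a y ∧ y ≠ a)).card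
    · exact mem_union_right _ (mem_filter.2 ⟨ha, hc a ha hh⟩)
    · exact mem_union_left _ (mem_filter.2 ⟨ha, by omega⟩)
  have h3 := card_le_card hs
  have h4 := card_union_le P1 P2
  by_cases hh : T ≤ P1.card
  · obtain ⟨X, hX, hXc⟩ := exists_subset_card_eq hh
    refine common (m := n) h (fun x hx => h1 (mem_filter.1 (hX hx)).1) hXc h1 ?_ (by omega)
    intro x hx
    have := (mem_filter.1 (hX hx)).2
    have := card_nadj_le (G := G) S1 x
    omega
  · have hh : T ≤ P2.card := by omega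
    obtain ⟨X, hX, hXc⟩ := exists_subset_card_eq hh
    refine common (m := n) h (fun x hx => h1 (mem_filter.1 (hX hx)).1) hXc h2 ?_ (by omega)
    intro x hx
    have := (mem_filter.1 (hX hx)).2
    have := card_nadj_le (G := G) S2 x
    omega

lemma anti {T : ℕ} {R : Finset V} (h : NoBi G T R) : ∀ (s : ℕ) (S1 S2 : Finset V),
    S1 ⊆ R → S2 ⊆ R → L0 T s ≤ S1.card → L0 T s ≤ S2.card →
    ∃ A ⊆ S1, ∃ B ⊆ S2, A.card = s ∧ B.card = s ∧ ∀ x ∈ A ∪ B, ∀ y ∈ A ∪ B, ¬ G.Adj x y := by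
  intro s
  induction s with
  | zero => intro S1 S2 _ _ _ _; exact ⟨∅, empty_subset _, ∅, empty_subset _, rfl, rfl, by simp⟩
  | succ s ih =>
    intro S1 S2 h1 h2 c1 c2
    simp only [L0] at c1 c2
    obtain ⟨a, ha, d1, d2⟩ := pick h h1 h2 c1 c2
    set S1' := S1.filter (fun y => ¬ G.Adj a y ∧ y ≠ a) with e1
    set S2' := S2.filter (fun y => ¬ G.Adj a y ∧ y ≠ a) with e2
    have k1 : S1' ⊆ S1 := filter_subset _ _
    have k2 : S2' ⊆ S2 := filter_subset _ _
    obtain ⟨b, hb, f2, f1⟩ := pick h (k2.trans h2) (k1.trans h1) d2 d1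
    obtain ⟨A, hA, B, hB, cA, cB, hind⟩ := ih _ _ ((filter_subset _ _).trans (k1.trans h1))
      ((filter_subset _ _).trans (k2.trans h2)) f1 f2
    have hA' : ∀ x ∈ A, x ∈ S1 ∧ ¬ G.Adj a x ∧ x ≠ a ∧ ¬ G.Adj b x ∧ x ≠ b := by
      intro x hx
      have t1 := mem_filter.1 (hA hx)
      have t2 := mem_filter.1 t1.1
      exact ⟨t2.1, t2.2.1, t2.2.2, t1.2.1, t1.2.2⟩
    have hB' : ∀ x ∈ B, x ∈ S2 ∧ ¬ G.Adj a x ∧ x ≠ a ∧ ¬ G.Adj b x ∧ x ≠ b := by
      intro x hx
      have t1 := mem_filter.1 (hB hx)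
      have t2 := mem_filter.1 t1.1
      exact ⟨t2.1, t2.2.1, t2.2.2, t1.2.1, t1.2.2⟩
    have hb' := mem_filter.1 hb
    refine ⟨insert a A, ?_, insert b B, ?_, ?_, ?_, ?_⟩
    · intro x hx
      rcases mem_insert.1 hx with rfl | hx
      · exact ha
      · exact (hA' x hx).1
    · intro x hx
      rcases mem_insert.1 hx with rfl | hx
      · exact hb'.1
      · exact (hB' x hx).1
    · rw [card_insert_of_notMem (fun hh => (hA' a hh).2.2.1 rfl), cA]
    · rw [card_insert_of_notMem (fun hh => (hB' b hh).2.2.2.2 rfl), cB]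
    · have key : ∀ x ∈ A ∪ B, ¬ G.Adj a x ∧ ¬ G.Adj b x := by
        intro x hx
        rcases mem_union.1 hx with hx | hx
        · exact ⟨(hA' x hx).2.1, (hA' x hx).2.2.2.1⟩
        · exact ⟨(hB' x hx).2.1, (hB' x hx).2.2.2.1⟩
      have cas : ∀ x ∈ insert a A ∪ insert b B, x = a ∨ x = b ∨ x ∈ A ∪ B := by
        intro x hx
        simp only [mem_union, mem_insert] at hx ⊢
        tauto
      intro x hx y hy
      have hx' := cas x hx
      have hy' := cas y hy
      clear hx hy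
      rcases hx' with rfl | rfl | hx <;> rcases hy' with rfl | rfl | hy
      · exact G.irrefl
      · exact hb'.2.1
      · exact (key y hy).1
      · exact fun hh => hb'.2.1 hh.symm
      · exact G.irrefl
      · exact (key y hy).2
      · exact fun hh => (key x hx).1 hh.symm
      · exact fun hh => (key x hx).2 hh.symm
      · exact hind x hx y hy

/-- neighbours of u in S that are not neighbours of v -/
def df (G : SimpleGraph V) [DecidableRel G.Adj] (S : Finset V) (u v : V) : Finset V :=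
  S.filter (fun x => G.Adj u x ∧ ¬ G.Adj v x)

/-- neighbours of u in S -/
def nb (G : SimpleGraph V) [DecidableRel G.Adj] (S : Finset V) (u : V) : Finset V :=
  S.filter (fun x => G.Adj u x)

lemma mem_df {S : Finset V} {u v x : V} : x ∈ df G S u v ↔ x ∈ S ∧ G.Adj u x ∧ ¬ G.Adj v x :=
  mem_filter

lemma mem_nb {S : Finset V} {u x : V} : x ∈ nb G S u ↔ x ∈ S ∧ G.Adj u x := mem_filter

lemma nest {T s : ℕ} {R S S' : Finset V} (hF : Free G s) (h : NoBi G T R) (hS : S ⊆ R)
    (hS' : S' ⊆ R) {u v : V} (huv : G.Adj u v) :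
    (df G S u v).card ≤ L0 T s ∨ (df G S' v u).card ≤ L0 T s := by
  by_contra hc
  push Not at hc
  have c1 : L0 T s ≤ ((df G S u v).erase v).card := by
    have := pred_card_le_card_erase (s := df G S u v) (a := v)
    omega
  have c2 : L0 T s ≤ ((df G S' v u).erase u).card := by
    have := pred_card_le_card_erase (s := df G S' v u) (a := u)
    omega
  obtain ⟨A, hA, B, hB, cA, cB, hind⟩ := anti h s _ _
    (fun x hx => hS (mem_df.1 (mem_of_mem_erase hx)).1)
    (fun x hx => hS' (mem_df.1 (mem_of_mem_erase hx)).1) c1 c2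
  refine hF u v huv A B cA cB ?_ ?_ hind
  · intro x hx
    have t := mem_erase.1 (hA hx)
    exact ⟨(mem_df.1 t.2).2.1, (mem_df.1 t.2).2.2, t.1⟩
  · intro x hx
    have t := mem_erase.1 (hB hx)
    exact ⟨(mem_df.1 t.2).2.1, (mem_df.1 t.2).2.2, t.1⟩

lemma star {T s : ℕ} {R S W : Finset V} (hF : Free G s) (h : NoBi G T R) (hS : S ⊆ R)
    {y x : V} (hyx : G.Adj y x) (hW : s ≤ W.card)
    (hW1 : ∀ p ∈ W, G.Adj y p ∧ ¬ G.Adj x p ∧ p ≠ x) (hW2 : ∀ p ∈ W, ∀ q ∈ W, ¬ G.Adj p q)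
    (hW3 : ∀ p ∈ W, ∀ q ∈ S, ¬ G.Adj p q) : (df G S x y).card ≤ L0 T s := by
  by_contra hc
  push Not at hc
  have c1 : L0 T s ≤ ((df G S x y).erase y).card := by
    have := pred_card_le_card_erase (s := df G S x y) (a := y)
    omega
  have hsub : (df G S x y).erase y ⊆ R := fun x hx => hS (mem_df.1 (mem_of_mem_erase hx)).1
  obtain ⟨B, hB, B', _, cB, _, hind⟩ := anti h s _ _ hsub hsub c1 c1
  obtain ⟨A, hA, cA⟩ := exists_subset_card_eq hW
  refine hF y x hyx A B cA cB (fun p hp => hW1 p (hA hp)) ?_ ?_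
  · intro q hq
    have t := mem_erase.1 (hB hq)
    exact ⟨(mem_df.1 t.2).2.1, (mem_df.1 t.2).2.2, t.1⟩
  · intro p hp q hq
    rcases mem_union.1 hp with hp | hp <;> rcases mem_union.1 hq with hq | hq
    · exact hW2 p (hA hp) q (hA hq)
    · exact hW3 p (hA hp) q (mem_df.1 (mem_of_mem_erase (hB hq))).1
    · exact fun hh => hW3 q (hA hq) p (mem_df.1 (mem_of_mem_erase (hB hp))).1 hh.symm
    · exact hind p (mem_union_left _ hp) q (mem_union_left _ hq)

lemma outdeg {T m : ℕ} {R S S' : Finset V} (h : NoBi G T R) (hS : S ⊆ R) (hS' : S' ⊆ R) {u : V}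
    (hu : T * m + T ≤ (nb G S u).card) :
    (S'.filter (fun v => (df G S u v).card ≤ m)).card < T := by
  by_contra hc
  push Not at hc
  obtain ⟨X, hX, hXc⟩ := exists_subset_card_eq hc
  refine common (m := m) h (fun x hx => hS' (mem_filter.1 (hX hx)).1) hXc
    (fun x hx => hS (mem_nb.1 hx).1) ?_ hu
  intro x hx
  refine le_trans (card_le_card ?_) (mem_filter.1 (hX hx)).2
  intro y hy
  have t := mem_filter.1 hy
  exact mem_df.2 ⟨(mem_nb.1 t.1).1, (mem_nb.1 t.1).2, t.2⟩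

lemma edges {T s : ℕ} {R S : Finset V} (hF : Free G s) (h : NoBi G T R) (hS : S ⊆ R) :
    ∑ u ∈ S, (nb G S u).card ≤ 2 * (T * L0 T s + T) * S.card := by
  set c := T * L0 T s + T with hc
  let ar : V → V → Prop := fun u v => G.Adj u v ∧ (df G S u v).card ≤ L0 T s
  have hout : ∀ u ∈ S, (S.filter (fun v => ar u v)).card ≤ c := by
    intro u _
    by_cases hh : c ≤ (nb G S u).card
    · have := outdeg h hS hS hh
      have h2 : S.filter (fun v => ar u v) ⊆ S.filter (fun v => (df G S u v).card ≤ L0 T s) := by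
        intro v hv
        exact mem_filter.2 ⟨(mem_filter.1 hv).1, (mem_filter.1 hv).2.2⟩
      have := card_le_card h2
      omega
    · have h2 : S.filter (fun v => ar u v) ⊆ nb G S u := by
        intro v hv
        exact mem_nb.2 ⟨(mem_filter.1 hv).1, (mem_filter.1 hv).2.1⟩
      have := card_le_card h2
      omega
  have h1 : ∀ u ∈ S, (nb G S u).card ≤
      (S.filter (fun v => ar u v)).card + (S.filter (fun v => ar v u)).card := by
    intro u _
    refine le_trans (card_le_card ?_) (card_union_le _ _)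
    intro v hv
    have t := mem_nb.1 hv
    rcases nest hF h hS hS t.2 with k | k
    · exact mem_union_left _ (mem_filter.2 ⟨t.1, t.2, k⟩)
    · exact mem_union_right _ (mem_filter.2 ⟨t.1, t.2.symm, k⟩)
  have h2 : ∑ u ∈ S, (S.filter (fun v => ar v u)).card = ∑ u ∈ S, (S.filter (fun v => ar u v)).card := by
    simp only [card_filter]
    exact sum_comm
  have h3 : ∑ u ∈ S, (S.filter (fun v => ar u v)).card ≤ c * S.card := by
    calc _ ≤ ∑ _u ∈ S, c := sum_le_sum hout
      _ = c * S.card := by simp [mul_comm]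
  calc _ ≤ ∑ u ∈ S, ((S.filter (fun v => ar u v)).card + (S.filter (fun v => ar v u)).card) :=
        sum_le_sum h1
    _ = _ := sum_add_distrib
    _ ≤ 2 * c * S.card := by rw [h2]; nlinarith

end Pool.Agent.H.MP_1aa2a2_co
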