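import Mathlib
import Pool.Agent.H.MP_1aa2a2_co.A

set_option autoImplicit false
set_option linter.unusedSectionVars false

namespace Pool.Agent.H.MP_1aa2a2_co
open Finset

variable {V : Type*} [DecidableEq V] {G : SimpleGraph V} [DecidableRel G.Adj]

lemma lowdeg {T s L L' : ℕ} {R : Finset V} (hF : Free G s) (h : NoBi G T R)
    (hL : L0 T s + L' + T + 2 * (T * L0 T s + T) ≤ L) {u : V} (hu : L < (nb G R u).card) :
    L' ≤ (nb G (R.filter (fun w => (nb G R w).card ≤ L)) u).card := by
  by_contra hc
  push Not at hc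
  set c := T * L0 T s + T with hcc
  set Bs := R.filter (fun w => (nb G R w).card ≤ L) with hBs
  set Out := R.filter (fun v => (df G R u v).card ≤ L0 T s) with hOut
  have hO : Out.card < T := outdeg h (Subset.refl _) (Subset.refl _) (by omega)
  set A' := R.filter (fun v => G.Adj u v ∧ L < (nb G R v).card ∧ L0 T s < (df G R u v).card) with hA'
  have cas : ∀ x ∈ R, G.Adj u x → x ∈ nb G Bs u ∨ x ∈ Out ∨ x ∈ A' := by
    intro x hx hux
    by_cases h1 : (nb G R x).card ≤ L
    · exact Or.inl (mem_nb.2 ⟨mem_filter.2 ⟨hx, h1⟩, hux⟩)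
    · by_cases h2 : (df G R u x).card ≤ L0 T s
      · exact Or.inr (Or.inl (mem_filter.2 ⟨hx, h2⟩))
      · exact Or.inr (Or.inr (mem_filter.2 ⟨hx, hux, by omega, by omega⟩))
  have h1 : ∀ v ∈ A', 2 * c + 1 ≤ (nb G A' v).card := by
    intro v hv
    have t := mem_filter.1 hv
    have k : (df G R v u).card ≤ L0 T s := by
      rcases nest hF h (Subset.refl _) (Subset.refl _) t.2.1 with k | k
      · omega
      · exact k
    have hsub : nb G R v ⊆ ((df G R v u ∪ nb G Bs u) ∪ Out) ∪ nb G A' v := by
      intro x hx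
      have r := mem_nb.1 hx
      by_cases hux : G.Adj u x
      · rcases cas x r.1 hux with q | q | q
        · exact mem_union_left _ (mem_union_left _ (mem_union_right _ q))
        · exact mem_union_left _ (mem_union_right _ q)
        · exact mem_union_right _ (mem_nb.2 ⟨q, r.2⟩)
      · exact mem_union_left _ (mem_union_left _ (mem_union_left _ (mem_df.2 ⟨r.1, r.2, hux⟩)))
    have e1 := card_le_card hsub
    have e2 := card_union_le ((df G R v u ∪ nb G Bs u) ∪ Out) (nb G A' v)
    have e3 := card_union_le (df G R v u ∪ nb G Bs u) Out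
    have e4 := card_union_le (df G R v u) (nb G Bs u)
    have := t.2.2.1
    omega
  have h2 := edges hF h (S := A') (filter_subset _ _)
  have h3 : (2 * c + 1) * A'.card ≤ ∑ v ∈ A', (nb G A' v).card := by
    calc _ = ∑ _v ∈ A', (2 * c + 1) := by simp [mul_comm]
      _ ≤ _ := sum_le_sum h1
  have h4 : A'.card = 0 := by
    rw [← hcc] at h2
    nlinarith
  have hsub : nb G R u ⊆ (nb G Bs u ∪ Out) ∪ A' := by
    intro x hx
    have r := mem_nb.1 hx
    rcases cas x r.1 r.2 with q | q | q
    · exact mem_union_left _ (mem_union_left _ q)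
    · exact mem_union_left _ (mem_union_right _ q)
    · exact mem_union_right _ q
  have e1 := card_le_card hsub
  have e2 := card_union_le (nb G Bs u ∪ Out) A'
  have e3 := card_union_le (nb G Bs u) Out
  omega

/-- pairwise disjoint family -/
def PD {ι : Type*} (D : ι → V → Prop) : Prop := ∀ i j v, D i v → D j v → i = j

lemma highHall {T s t : ℕ} (hT : 0 < T) {R A B : Finset V} (hF : Free G s) (h : NoBi G T R)
    (hA : A ⊆ R) (hB : B ⊆ R)
    (hd : ∀ u ∈ A, 2 * (T * L0 T s + T) * (t + 1) ≤ (nb G B u).card) :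
    ∃ D : Fin t → V → Prop, PD D ∧ (∀ i v, D i v → v ∈ B) ∧ ∀ u ∈ A, ∀ i, ∃ v, D i v ∧ G.Adj u v := by
  classical
  set c := T * L0 T s + T with hcc
  have hall := (all_card_le_biUnion_card_iff_exists_injective
    (fun x : {u // u ∈ A} × Fin t => nb G B x.1.1)).1 (by
      intro S
      set H := S.image (fun x => x.1.1) with hH
      set N := S.biUnion (fun x => nb G B x.1.1) with hN
      have hHA : H ⊆ A := by
        intro u hu
        obtain ⟨x, _, rfl⟩ := mem_image.1 hu
        exact x.1.2
      have hNB : N ⊆ B := by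
        intro v hv
        obtain ⟨x, _, hx⟩ := mem_biUnion.1 hv
        exact (mem_nb.1 hx).1
      have e1 : S.card ≤ H.card * t := by
        have : S.card ≤ (H ×ˢ (univ : Finset (Fin t))).card := by
          refine card_le_card_of_injOn (fun x => (x.1.1, x.2)) ?_ ?_
          · intro x hx
            simp only [coe_product, Set.mem_prod, mem_coe, mem_univ, and_true]
            exact mem_image.2 ⟨x, hx, rfl⟩
          · intro x _ y _ hxy
            simp only [Prod.mk.injEq] at hxy
            exact Prod.ext (Subtype.ext hxy.1) hxy.2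
        simpa using this
      have e2 := edges hF h (S := H ∪ N) (union_subset (hHA.trans hA) (hNB.trans hB))
      have e3 : 2 * c * (t + 1) * H.card ≤ ∑ u ∈ H ∪ N, (nb G (H ∪ N) u).card := by
        calc _ = ∑ _u ∈ H, 2 * c * (t + 1) := by simp [mul_comm]
          _ ≤ ∑ u ∈ H, (nb G (H ∪ N) u).card := by
            refine sum_le_sum ?_
            intro u hu
            refine (hd u (hHA hu)).trans (card_le_card ?_)
            intro v hv
            obtain ⟨x, hx, rfl⟩ := mem_image.1 hu
            exact mem_nb.2 ⟨mem_union_right _ (mem_biUnion.2 ⟨x, hx, hv⟩), (mem_nb.1 hv).2⟩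
          _ ≤ _ := sum_le_sum_of_subset subset_union_left
      have e4 := card_union_le H N
      rw [← hcc] at e2
      have hc : 0 < 2 * c := by omega
      have e5 : 2 * c * ((t + 1) * H.card) ≤ 2 * c * (H.card + N.card) := by
        calc _ = 2 * c * (t + 1) * H.card := by ring
          _ ≤ 2 * c * (H ∪ N).card := e3.trans e2
          _ ≤ _ := Nat.mul_le_mul_left _ e4
      have e6 := Nat.le_of_mul_le_mul_left e5 hc
      nlinarith)
  obtain ⟨f, hf, hf2⟩ := hall
  refine ⟨fun i v => ∃ u : {u // u ∈ A}, f (u, i) = v, ?_, ?_, ?_⟩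
  · rintro i j v ⟨u, hu⟩ ⟨u', hu'⟩
    have := hf (hu.trans hu'.symm)
    exact (Prod.ext_iff.1 this).2
  · rintro i v ⟨u, rfl⟩
    exact (mem_nb.1 (hf2 (u, i))).1
  · intro u hu i
    exact ⟨f (⟨u, hu⟩, i), ⟨⟨u, hu⟩, rfl⟩, (mem_nb.1 (hf2 (⟨u, hu⟩, i))).2⟩

lemma gain (U : Finset V) (y z z' : V) :
    (nb G U z).card + (nb G (U.filter (fun w => ¬ G.Adj z w)) z').card ≤
      (nb G U y).card + (df G U z y).card + (df G (U.filter (fun w => ¬ G.Adj z w)) z' y).card := by
  set U' := U.filter (fun w => ¬ G.Adj z w) with hU'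
  have hdis : Disjoint (nb G U z) (nb G U' z') := by
    rw [disjoint_left]
    intro x h1 h2
    exact (mem_filter.1 (mem_nb.1 h2).1).2 (mem_nb.1 h1).2
  rw [← card_union_of_disjoint hdis]
  have hsub : nb G U z ∪ nb G U' z' ⊆ (nb G U y ∪ df G U z y) ∪ df G U' z' y := by
    intro x hx
    by_cases hy : G.Adj y x
    · refine mem_union_left _ (mem_union_left _ (mem_nb.2 ⟨?_, hy⟩))
      rcases mem_union.1 hx with q | q
      · exact (mem_nb.1 q).1
      · exact (mem_filter.1 (mem_nb.1 q).1).1
    · rcases mem_union.1 hx with q | q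
      · exact mem_union_left _ (mem_union_right _ (mem_df.2 ⟨(mem_nb.1 q).1, (mem_nb.1 q).2, hy⟩))
      · exact mem_union_right _ (mem_df.2 ⟨(mem_nb.1 q).1, (mem_nb.1 q).2, hy⟩)
  have e1 := card_le_card hsub
  have e2 := card_union_le (nb G U y ∪ df G U z y) (df G U' z' y)
  have e3 := card_union_le (nb G U y) (df G U z y)
  omega

lemma greedy {T s L L2 : ℕ} {R B : Finset V} (hF : Free G s) (h : NoBi G T R) (hBR : B ⊆ R)
    (hB : ∀ w ∈ B, (nb G B w).card ≤ L) (h1 : 2 * L0 T s < L2) (h2 : L0 T s + L < L2)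
    (Q : Finset V) : ∀ (n : ℕ) (U : Finset V), U.card = n → U ⊆ B → ∃ Z ⊆ Q,
      (∀ x ∈ Q, ((nb G U x).filter (fun w => ∀ z ∈ Z, ¬ G.Adj z w)).card < L2) ∧
      (∀ z ∈ Z, L2 ≤ (nb G U z).card) ∧ (∀ z ∈ Z, ∀ z' ∈ Z, ¬ G.Adj z z') ∧
      (∀ y, (y ∈ Q ∨ y ∈ B) → ∀ W : Finset V, (∀ p ∈ W, G.Adj y p) →
        (∀ p ∈ W, ∀ q ∈ W, ¬ G.Adj p q) → (∀ p ∈ W, ∀ q ∈ U, ¬ G.Adj p q) →
        (∀ p ∈ W, ∀ z ∈ Z, ¬ G.Adj z p ∧ p ≠ z) → (nb G Z y).card ≤ s - W.card + 1) := by
  intro n
  induction n using Nat.strong_induction_on with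
  | _ n ih =>
  intro U hn hU
  by_cases hs : ∀ x ∈ Q, (nb G U x).card < L2
  · refine ⟨∅, empty_subset _, ?_, by simp, by simp, ?_⟩
    · intro x hx
      exact lt_of_le_of_lt (card_le_card (filter_subset _ _)) (hs x hx)
    · intro y _ W _ _ _ _
      simp [nb]
  push Not at hs
  obtain ⟨x0, hx0, hx0'⟩ := hs
  obtain ⟨z, hz, hmax⟩ := exists_max_image Q (fun x => (nb G U x).card) ⟨x0, hx0⟩
  have hzL : L2 ≤ (nb G U z).card := hx0'.trans (hmax x0 hx0)
  set U' := U.filter (fun w => ¬ G.Adj z w) with hU'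
  have hU'U : U' ⊆ U := filter_subset _ _
  have hlt : U'.card < n := by
    rw [← hn]
    apply card_lt_card
    refine ⟨hU'U, fun hh => ?_⟩
    obtain ⟨w, hw⟩ : (nb G U z).Nonempty := card_pos.1 (by omega)
    exact (mem_filter.1 (hh (mem_nb.1 hw).1)).2 (mem_nb.1 hw).2
  obtain ⟨Z', hZ'Q, a1, a2, a3, a4⟩ := ih _ hlt U' rfl (hU'U.trans hU)
  have hzZ : z ∉ Z' := by
    intro hh
    obtain ⟨w, hw⟩ : (nb G U' z).Nonempty := card_pos.1 (by have := a2 z hh; omega)
    exact (mem_filter.1 (mem_nb.1 hw).1).2 (mem_nb.1 hw).2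
  have hind : ∀ z' ∈ Z', ¬ G.Adj z z' := by
    intro z' hz' hadj
    have k1 : (df G U z z').card ≤ L0 T s := by
      rcases nest hF h (hU.trans hBR) (hU.trans hBR) hadj with k | k
      · exact k
      · exfalso
        have : nb G U' z' ⊆ df G U z' z := by
          intro w hw
          have r := mem_nb.1 hw
          exact mem_df.2 ⟨hU'U r.1, r.2, (mem_filter.1 r.1).2⟩
        have := card_le_card this
        have := a2 z' hz'
        omega
    have k2 := gain (G := G) U z' z z'
    have k3 : df G U' z' z' = ∅ := by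
      apply eq_empty_of_forall_notMem
      intro w hw
      exact (mem_df.1 hw).2.2 (mem_df.1 hw).2.1
    rw [← hU', k3, card_empty] at k2
    have := a2 z' hz'
    have := hmax z' (hZ'Q hz')
    omega
  refine ⟨insert z Z', insert_subset hz hZ'Q, ?_, ?_, ?_, ?_⟩
  · intro x hx
    refine lt_of_le_of_lt (card_le_card ?_) (a1 x hx)
    intro w hw
    have r := mem_filter.1 hw
    have r' := mem_nb.1 r.1
    exact mem_filter.2 ⟨mem_nb.2 ⟨mem_filter.2 ⟨r'.1, r.2 z (mem_insert_self _ _)⟩, r'.2⟩,
      fun z' hz' => r.2 z' (mem_insert_of_mem hz')⟩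
  · intro z' hz'
    rcases mem_insert.1 hz' with rfl | hz'
    · exact hzL
    · refine (a2 z' hz').trans (card_le_card ?_)
      intro w hw
      exact mem_nb.2 ⟨hU'U (mem_nb.1 hw).1, (mem_nb.1 hw).2⟩
  · intro p hp q hq
    rcases mem_insert.1 hp with hp | hp <;> rcases mem_insert.1 hq with hq | hq
    · rw [hp, hq]; exact G.irrefl
    · rw [hp]; exact hind q hq
    · rw [hq]; exact fun hh => hind p hp hh.symm
    · exact a3 p hp q hq
  · intro y hy W w1 w2 w3 w4
    by_cases hyz : G.Adj y z
    · have hle : (nb G (insert z Z') y).card ≤ (nb G Z' y).card + 1 := by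
        refine le_trans (card_le_card ?_) (card_insert_le z _)
        intro p hp
        have r := mem_nb.1 hp
        rcases mem_insert.1 r.1 with q | q
        · rw [q]; exact mem_insert_self _ _
        · exact mem_insert_of_mem (mem_nb.2 ⟨q, r.2⟩)
      have hzW : z ∉ W := fun hh => (w4 z hh z (mem_insert_self _ _)).2 rfl
      by_cases hW : W.card < s
      · have := a4 y hy (insert z W) ?_ ?_ ?_ ?_
        · rw [card_insert_of_notMem hzW] at this
          omega
        · intro p hp
          rcases mem_insert.1 hp with q | q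
          · rw [q]; exact hyz
          · exact w1 p q
        · intro p hp q hq
          rcases mem_insert.1 hp with hp | hp <;> rcases mem_insert.1 hq with hq | hq
          · rw [hp, hq]; exact G.irrefl
          · rw [hp]; exact (w4 q hq z (mem_insert_self _ _)).1
          · rw [hq]; exact fun hh => (w4 p hp z (mem_insert_self _ _)).1 hh.symm
          · exact w2 p hp q hq
        · intro p hp q hq
          rcases mem_insert.1 hp with hp | hp
          · rw [hp]; exact (mem_filter.1 hq).2
          · exact w3 p hp q (hU'U hq)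
        · intro p hp z' hz'
          rcases mem_insert.1 hp with hp | hp
          · rw [hp]; exact ⟨fun hh => hind z' hz' hh.symm, fun hh => hzZ (hh ▸ hz')⟩
          · exact w4 p hp z' (mem_insert_of_mem hz')
      · have hW : s ≤ W.card := by omega
        have k1 : (df G U z y).card ≤ L0 T s := star hF h (hU.trans hBR) hyz hW
          (fun p hp => ⟨w1 p hp, w4 p hp z (mem_insert_self _ _)⟩) w2 w3
        have hz0 : nb G Z' y = ∅ := by
          apply eq_empty_of_forall_notMem
          intro z' hz'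
          have r := mem_nb.1 hz'
          rcases hy with hy | hy
          · have k2 : (df G U' z' y).card ≤ L0 T s := star hF h ((hU'U.trans hU).trans hBR) r.2 hW
              (fun p hp => ⟨w1 p hp, w4 p hp z' (mem_insert_of_mem r.1)⟩) w2
              (fun p hp q hq => w3 p hp q (hU'U hq))
            have k3 := gain (G := G) U y z z'
            rw [← hU'] at k3
            have := a2 z' r.1
            have := hmax y hy
            omega
          · have : nb G U z ⊆ df G U z y ∪ nb G B y := by
              intro w hw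
              have r' := mem_nb.1 hw
              by_cases hyw : G.Adj y w
              · exact mem_union_right _ (mem_nb.2 ⟨hU r'.1, hyw⟩)
              · exact mem_union_left _ (mem_df.2 ⟨r'.1, r'.2, hyw⟩)
            have := card_le_card this
            have := card_union_le (df G U z y) (nb G B y)
            have := hB y hy
            omega
        rw [hz0, card_empty] at hle
        omega
    · refine le_trans (card_le_card ?_) (a4 y hy W w1 w2 (fun p hp q hq => w3 p hp q (hU'U hq))
        (fun p hp z' hz' => w4 p hp z' (mem_insert_of_mem hz')))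
      intro p hp
      have r := mem_nb.1 hp
      rcases mem_insert.1 r.1 with q | q
      · exact absurd (q ▸ r.2) hyz
      · exact mem_nb.2 ⟨q, r.2⟩

lemma cover {T s L L2 : ℕ} {R B : Finset V} (hF : Free G s) (h : NoBi G T R) (hBR : B ⊆ R)
    (hB : ∀ w ∈ B, (nb G B w).card ≤ L) (h1 : 2 * L0 T s < L2) (h2 : L0 T s + L < L2)
    (Q : Finset V) : ∃ Z ⊆ Q,
      (∀ x ∈ Q, ((nb G B x).filter (fun w => ∀ z ∈ Z, ¬ G.Adj z w)).card ≤ L2) ∧
      (∀ y, (y ∈ Q ∨ y ∈ B) → (nb G Z y).card ≤ s + 1) := by
  obtain ⟨Z, hZ, a1, _, _, a4⟩ := greedy hF h hBR hB h1 h2 Q _ B rfl (Subset.refl _)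
  refine ⟨Z, hZ, fun x hx => (a1 x hx).le, fun y hy => ?_⟩
  simpa using a4 y hy ∅ (by simp) (by simp) (by simp) (by simp)

end Pool.Agent.H.MP_1aa2a2_co
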