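import Mathlib
import Pool.Agent.H.MP_1aa2a2_co.B

set_option autoImplicit false
set_option linter.unusedSectionVars false

namespace Pool.Agent.H.MP_1aa2a2_co
open Finset

variable {V : Type*} [DecidableEq V] {G : SimpleGraph V} [DecidableRel G.Adj]

def Pack (G : SimpleGraph V) (T : ℕ) (C : Finset (Finset V)) : Prop :=
  (∀ X ∈ C, X.card = T) ∧ (∀ X ∈ C, ∀ Y ∈ C, ∀ v, v ∈ X → v ∈ Y → X = Y) ∧
    (∀ X ∈ C, ∃ Y ∈ C, ∀ x ∈ X, ∀ y ∈ Y, G.Adj x y)

lemma packing [Fintype V] {T : ℕ} (hT : 0 < T) :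
    ∃ C : Finset (Finset V), Pack G T C ∧ NoBi G T (univ \ C.biUnion id) := by
  classical
  obtain ⟨C, hC, hmax⟩ := exists_max_image (univ.filter (fun C : Finset (Finset V) => Pack G T C))
    card ⟨∅, mem_filter.2 ⟨mem_univ _, by simp [Pack]⟩⟩
  have hC := (mem_filter.1 hC).2
  refine ⟨C, hC, ?_⟩
  intro X Y hX hY cX cY hXY
  have hX' : ∀ v ∈ X, ∀ Z ∈ C, v ∉ Z := fun v hv Z hZ hh =>
    (mem_sdiff.1 (hX hv)).2 (mem_biUnion.2 ⟨Z, hZ, hh⟩)
  have hY' : ∀ v ∈ Y, ∀ Z ∈ C, v ∉ Z := fun v hv Z hZ hh =>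
    (mem_sdiff.1 (hY hv)).2 (mem_biUnion.2 ⟨Z, hZ, hh⟩)
  have hXC : X ∉ C := by
    intro hh
    obtain ⟨v, hv⟩ : X.Nonempty := card_pos.1 (by omega)
    exact hX' v hv X hh hv
  have hp : Pack G T (insert X (insert Y C)) := by
    refine ⟨?_, ?_, ?_⟩
    · intro Z hZ
      simp only [mem_insert] at hZ
      rcases hZ with rfl | rfl | hZ
      · exact cX
      · exact cY
      · exact hC.1 Z hZ
    · intro Z hZ Z' hZ' v h1 h2
      simp only [mem_insert] at hZ hZ'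
      rcases hZ with hZ | hZ | hZ <;> rcases hZ' with hZ' | hZ' | hZ'
      · rw [hZ, hZ']
      · exact absurd (hXY v (hZ ▸ h1) v (hZ' ▸ h2)) G.irrefl
      · exact absurd h2 (hX' v (hZ ▸ h1) Z' hZ')
      · exact absurd (hXY v (hZ' ▸ h2) v (hZ ▸ h1)) G.irrefl
      · rw [hZ, hZ']
      · exact absurd h2 (hY' v (hZ ▸ h1) Z' hZ')
      · exact absurd h1 (hX' v (hZ' ▸ h2) Z hZ)
      · exact absurd h1 (hY' v (hZ' ▸ h2) Z hZ)
      · exact hC.2.1 Z hZ Z' hZ' v h1 h2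
    · intro Z hZ
      simp only [mem_insert] at hZ
      rcases hZ with hZ | hZ | hZ
      · exact ⟨Y, by simp, hZ ▸ hXY⟩
      · exact ⟨X, by simp, fun x hx y hy => (hXY y hy x (hZ ▸ hx)).symm⟩
      · obtain ⟨W, hW, hh⟩ := hC.2.2 Z hZ
        exact ⟨W, by simp [hW], hh⟩
  have h1 := hmax _ (mem_filter.2 ⟨mem_univ _, hp⟩)
  have h2 : (insert X C).card ≤ (insert X (insert Y C)).card :=
    card_le_card (insert_subset_insert _ (subset_insert _ _))
  rw [card_insert_of_notMem hXC] at h2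
  omega

lemma iter {T s L L2 : ℕ} {R B : Finset V} (hF : Free G s) (h : NoBi G T R) (hBR : B ⊆ R)
    (hB : ∀ w ∈ B, (nb G B w).card ≤ L) (h1 : 2 * L0 T s < L2) (h2 : L0 T s + L < L2)
    {C : Finset (Finset V)} (hC : Pack G T C) : ∀ k, k * (s + 1) < T →
    ∃ (Z : ℕ → Finset V) (U : Finset V), U ⊆ C.biUnion id ∧ (∀ i < k, Z i ⊆ U) ∧
      (∀ i < k, ∀ j < k, ∀ v, v ∈ Z i → v ∈ Z j → i = j) ∧
      (∀ X ∈ C, (X ∩ U).card ≤ k * (s + 1)) ∧ (∀ w ∈ B, (nb G U w).card ≤ k * (s + 1)) ∧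
      (∀ i < k, ∀ x ∈ C.biUnion id \ U,
        ((nb G B x).filter (fun w => ∀ z ∈ Z i, ¬ G.Adj z w)).card ≤ L2) := by
  intro k
  induction k with
  | zero => intro _; exact ⟨fun _ => ∅, ∅, by simp, by simp, by simp, by simp, by simp [nb], by simp⟩
  | succ k ih =>
    intro hk
    have hk' : k * (s + 1) < T := by nlinarith
    obtain ⟨Z, U, b1, b2, b3, b4, b5, b6⟩ := ih hk'
    obtain ⟨Z', hZ', c1, c2⟩ := cover hF h hBR hB h1 h2 (C.biUnion id \ U)
    have e : (k + 1) * (s + 1) = k * (s + 1) + (s + 1) := by ring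
    refine ⟨fun i => if i = k then Z' else Z i, U ∪ Z', ?_, ?_, ?_, ?_, ?_, ?_⟩
    · exact union_subset b1 (hZ'.trans sdiff_subset)
    · intro i hi
      by_cases hik : i = k
      · simp [hik]
      · simp only [hik, if_false]
        exact (b2 i (by omega)).trans subset_union_left
    · intro i hi j hj v hv hv'
      by_cases hik : i = k <;> by_cases hjk : j = k
      · omega
      · simp only [hik, hjk, if_true, if_false] at hv hv'
        exact absurd (b2 j (by omega) hv') (mem_sdiff.1 (hZ' hv)).2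
      · simp only [hik, hjk, if_true, if_false] at hv hv'
        exact absurd (b2 i (by omega) hv) (mem_sdiff.1 (hZ' hv')).2
      · simp only [hik, hjk, if_false] at hv hv'
        exact b3 i (by omega) j (by omega) v hv hv'
    · intro X hX
      obtain ⟨Y, hY, hXY⟩ := hC.2.2 X hX
      have hne : ∃ y ∈ Y, y ∉ U := by
        by_contra hh
        push Not at hh
        have : Y ∩ U = Y := inter_eq_left.2 hh
        have k1 := b4 Y hY
        rw [this, hC.1 Y hY] at k1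
        omega
      obtain ⟨y, hy, hyU⟩ := hne
      have k1 := c2 y (Or.inl (mem_sdiff.2 ⟨mem_biUnion.2 ⟨Y, hY, hy⟩, hyU⟩))
      have k2 : X ∩ (U ∪ Z') ⊆ (X ∩ U) ∪ nb G Z' y := by
        intro x hx
        have r := mem_inter.1 hx
        rcases mem_union.1 r.2 with q | q
        · exact mem_union_left _ (mem_inter.2 ⟨r.1, q⟩)
        · exact mem_union_right _ (mem_nb.2 ⟨q, (hXY x r.1 y hy).symm⟩)
      have := card_le_card k2
      have := card_union_le (X ∩ U) (nb G Z' y)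
      have := b4 X hX
      omega
    · intro w hw
      have k1 := c2 w (Or.inr hw)
      have k2 : nb G (U ∪ Z') w ⊆ nb G U w ∪ nb G Z' w := by
        intro x hx
        have r := mem_nb.1 hx
        rcases mem_union.1 r.1 with q | q
        · exact mem_union_left _ (mem_nb.2 ⟨q, r.2⟩)
        · exact mem_union_right _ (mem_nb.2 ⟨q, r.2⟩)
      have := card_le_card k2
      have := card_union_le (nb G U w) (nb G Z' w)
      have := b5 w hw
      omega
    · intro i hi x hx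
      have r := mem_sdiff.1 hx
      have hx' : x ∈ C.biUnion id \ U := mem_sdiff.2 ⟨r.1, fun hh => r.2 (mem_union_left _ hh)⟩
      by_cases hik : i = k
      · simp only [hik, if_true]
        exact c1 x hx'
      · simp only [hik, if_false]
        exact b6 i (by omega) x hx'

lemma reps [Fintype V] {T t L2 : ℕ} (hT : 0 < T) {B U : Finset V} {C : Finset (Finset V)}
    (hC : Pack G T C) (Z : Fin t → Finset V)
    (hZ : ∀ i, ∀ x ∈ C.biUnion id \ U,
        ((nb G B x).filter (fun w => ∀ z ∈ Z i, ¬ G.Adj z w)).card ≤ L2)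
    (hd : ∀ w ∈ B, T * (T * (t * L2) + 1) ≤ (nb G (C.biUnion id \ U) w).card) :
    ∃ (D : Fin t → V → Prop) (Rp : Finset V), PD D ∧ (∀ i v, D i v → v ∈ Rp) ∧
      Rp ⊆ C.biUnion id \ U ∧ (∀ X ∈ C, (X ∩ Rp).card ≤ 1) ∧
      ∀ w ∈ B, ∀ i, (∀ z ∈ Z i, ¬ G.Adj z w) → ∃ v, D i v ∧ G.Adj w v := by
  classical
  set K := T * (t * L2) + 1 with hK
  let ι := {p : V × Fin t // p.1 ∈ B ∧ ∀ z ∈ Z p.2, ¬ G.Adj z p.1}
  let rel : ι → Finset V → Prop := fun d X => ∃ x ∈ X, x ∉ U ∧ G.Adj d.1.1 x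
  have lo : ∀ d : ι, K ≤ (C.filter (rel d)).card := by
    intro d
    have k1 : nb G (C.biUnion id \ U) d.1.1 ⊆ (C.filter (rel d)).biUnion id := by
      intro x hx
      have r := mem_nb.1 hx
      have r' := mem_sdiff.1 r.1
      obtain ⟨X, hX, hxX⟩ := mem_biUnion.1 r'.1
      exact mem_biUnion.2 ⟨X, mem_filter.2 ⟨hX, x, hxX, r'.2, r.2⟩, hxX⟩
    have k2 : ((C.filter (rel d)).biUnion id).card ≤ T * (C.filter (rel d)).card := by
      calc _ ≤ ∑ X ∈ C.filter (rel d), (id X).card := card_biUnion_le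
        _ = ∑ _X ∈ C.filter (rel d), T :=
          sum_congr rfl (fun X hX => hC.1 X (mem_filter.1 hX).1)
        _ = _ := by simp [mul_comm]
    exact Nat.le_of_mul_le_mul_left ((hd _ d.2.1).trans ((card_le_card k1).trans k2)) hT
  have up : ∀ X ∈ C, ∀ S : Finset ι, (S.filter (fun d => rel d X)).card ≤ K := by
    intro X hX S
    have k1 : (S.filter (fun d => rel d X)).card ≤ ((X \ U).biUnion (fun x =>
        (univ : Finset (Fin t)).biUnion (fun i =>
          ((nb G B x).filter (fun w => ∀ z ∈ Z i, ¬ G.Adj z w)).image (fun w => (w, i))))).card := by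
      refine card_le_card_of_injOn (fun d => d.1) ?_ (fun a _ b _ hab => Subtype.ext hab)
      intro d hd'
      obtain ⟨x, hx, hxU, hadj⟩ := (mem_filter.1 (mem_coe.1 hd')).2
      exact mem_coe.2 (mem_biUnion.2 ⟨x, mem_sdiff.2 ⟨hx, hxU⟩, mem_biUnion.2 ⟨d.1.2, mem_univ _,
        mem_image.2 ⟨d.1.1, mem_filter.2 ⟨mem_nb.2 ⟨d.2.1, hadj.symm⟩, d.2.2⟩, rfl⟩⟩⟩)
    have k2 : ∀ x ∈ X \ U, ((univ : Finset (Fin t)).biUnion (fun i =>
          ((nb G B x).filter (fun w => ∀ z ∈ Z i, ¬ G.Adj z w)).image (fun w => (w, i)))).card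
            ≤ t * L2 := by
      intro x hx
      have r := mem_sdiff.1 hx
      calc _ ≤ ∑ i : Fin t, (((nb G B x).filter (fun w => ∀ z ∈ Z i, ¬ G.Adj z w)).image
              (fun w => (w, i))).card := card_biUnion_le
        _ ≤ ∑ _i : Fin t, L2 := sum_le_sum (fun i _ => card_image_le.trans
              (hZ i x (mem_sdiff.2 ⟨mem_biUnion.2 ⟨X, hX, r.1⟩, r.2⟩)))
        _ = t * L2 := by simp
    have k3 : (X \ U).card ≤ T := (card_le_card sdiff_subset).trans (hC.1 X hX).le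
    calc _ ≤ _ := k1
      _ ≤ ∑ x ∈ X \ U, _ := card_biUnion_le
      _ ≤ ∑ _x ∈ X \ U, t * L2 := sum_le_sum k2
      _ = (X \ U).card * (t * L2) := by simp
      _ ≤ T * (t * L2) := Nat.mul_le_mul_right _ k3
      _ ≤ K := by omega
  obtain ⟨g, hg, hg2⟩ := (all_card_le_biUnion_card_iff_exists_injective
    (fun d : ι => C.filter (rel d))).1 (by
      intro S
      have := card_mul_le_card_mul (s := S) (t := S.biUnion (fun d => C.filter (rel d)))
        (m := K) (n := K) rel ?_ ?_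
      · exact Nat.le_of_mul_le_mul_right this (by omega)
      · intro d hd'
        refine (lo d).trans (card_le_card ?_)
        intro X hX
        exact (mem_bipartiteAbove _).2 ⟨mem_biUnion.2 ⟨d, hd', hX⟩, (mem_filter.1 hX).2⟩
      · intro X hX
        obtain ⟨d, _, hd'⟩ := mem_biUnion.1 hX
        exact up X (mem_filter.1 hd').1 S)
  choose r hr1 hr2 hr3 using fun d : ι => (mem_filter.1 (hg2 d)).2
  have hgC : ∀ d, g d ∈ C := fun d => (mem_filter.1 (hg2 d)).1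
  have rinj : ∀ d d', r d = r d' → d = d' := by
    intro d d' hh
    exact hg (hC.2.1 _ (hgC d) _ (hgC d') (r d) (hr1 d) (hh ▸ hr1 d'))
  refine ⟨fun i v => ∃ d : ι, d.1.2 = i ∧ r d = v, univ.image r, ?_, ?_, ?_, ?_, ?_⟩
  · rintro i j v ⟨d, rfl, hd1⟩ ⟨d', rfl, hd2⟩
    rw [rinj d d' (hd1.trans hd2.symm)]
  · rintro i v ⟨d, _, rfl⟩
    exact mem_image.2 ⟨d, mem_univ _, rfl⟩
  · intro v hv
    obtain ⟨d, _, rfl⟩ := mem_image.1 hv
    exact mem_sdiff.2 ⟨mem_biUnion.2 ⟨g d, hgC d, hr1 d⟩, hr2 d⟩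
  · intro X hX
    rw [card_le_one]
    intro a ha b hb
    obtain ⟨d, _, rfl⟩ := mem_image.1 (mem_inter.1 ha).2
    obtain ⟨d', _, rfl⟩ := mem_image.1 (mem_inter.1 hb).2
    have e1 := hC.2.1 _ (hgC d) _ hX (r d) (hr1 d) (mem_inter.1 ha).1
    have e2 := hC.2.1 _ (hgC d') _ hX (r d') (hr1 d') (mem_inter.1 hb).1
    rw [hg (e1.trans e2.symm)]
  · intro w hw i hi
    exact ⟨r ⟨(w, i), hw, hi⟩, ⟨_, rfl, rfl⟩, hr3 ⟨(w, i), hw, hi⟩⟩

lemma rain {T t : ℕ} {U : Finset V} {C : Finset (Finset V)} (hC : Pack G T C)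
    (hd : ∀ X ∈ C, t ≤ (X \ U).card) :
    ∃ D : Fin t → V → Prop, PD D ∧ (∀ i v, D i v → v ∈ C.biUnion id \ U) ∧
      ∀ w ∈ C.biUnion id, ∀ i, ∃ v, D i v ∧ G.Adj w v := by
  have : ∀ X : {X // X ∈ C}, ∃ e : Fin t → V, Function.Injective e ∧ ∀ i, e i ∈ X.1 \ U := by
    intro X
    obtain ⟨Y, hY, hc⟩ := exists_subset_card_eq (hd X.1 X.2)
    refine ⟨fun i => ((Y.equivFinOfCardEq hc).symm i : V), ?_, fun i => hY (Subtype.prop _)⟩
    intro i j hij
    exact (Y.equivFinOfCardEq hc).symm.injective (Subtype.ext hij)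
  choose e he1 he2 using this
  refine ⟨fun i v => ∃ X, e X i = v, ?_, ?_, ?_⟩
  · rintro i j v ⟨X, hX⟩ ⟨Y, hY⟩
    have : X = Y := Subtype.ext (hC.2.1 _ X.2 _ Y.2 v (hX ▸ (mem_sdiff.1 (he2 X i)).1)
      (hY ▸ (mem_sdiff.1 (he2 Y j)).1))
    subst this
    exact he1 X (hX.trans hY.symm)
  · rintro i v ⟨X, rfl⟩
    have r := mem_sdiff.1 (he2 X i)
    exact mem_sdiff.2 ⟨mem_biUnion.2 ⟨X.1, X.2, r.1⟩, r.2⟩
  · intro w hw i
    obtain ⟨X, hX, hwX⟩ := mem_biUnion.1 hw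
    obtain ⟨Y, hY, hXY⟩ := hC.2.2 X hX
    exact ⟨e ⟨Y, hY⟩ i, ⟨_, rfl⟩, hXY w hwX _ (mem_sdiff.1 (he2 ⟨Y, hY⟩ i)).1⟩

lemma PD.union {ι : Type*} {D D' : ι → V → Prop} (h : PD D) (h' : PD D')
    (hd : ∀ i j v, D i v → D' j v → False) : PD (fun i v => D i v ∨ D' i v) := by
  intro i j v h1 h2
  rcases h1 with h1 | h1 <;> rcases h2 with h2 | h2
  · exact h i j v h1 h2
  · exact (hd i j v h1 h2).elim
  · exact (hd j i v h2 h1).elim
  · exact h' i j v h1 h2

def bound (s t : ℕ) : ℕ :=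
  let T := t * (s + 1) + 1 + t
  let c := T * L0 T s + T
  let L := L0 T s + 2 * c * (t + 1) + T + 2 * c
  let L2 := 2 * L0 T s + L + 1
  T * (T * (t * L2) + 1) + t * (s + 1) + L

theorem main [Fintype V] {s t : ℕ} (hF : Free G s)
    (hd : ∀ v, bound s t ≤ (nb G univ v).card) :
    ∃ D : Fin t → V → Prop, PD D ∧ ∀ i w, ∃ v, D i v ∧ G.Adj w v := by
  classical
  set T := t * (s + 1) + 1 + t with hT
  set c := T * L0 T s + T with hc
  set L := L0 T s + 2 * c * (t + 1) + T + 2 * c with hL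
  set L2 := 2 * L0 T s + L + 1 with hL2
  have hb : bound s t = T * (T * (t * L2) + 1) + t * (s + 1) + L := rfl
  have hT0 : 0 < T := by omega
  obtain ⟨C, hC, hN⟩ := packing (G := G) hT0
  set P := C.biUnion id with hP
  set R := univ \ P with hR
  set B := R.filter (fun w => (nb G R w).card ≤ L) with hB
  set A := R.filter (fun w => L < (nb G R w).card) with hA
  have hBR : B ⊆ R := filter_subset _ _
  have hAR : A ⊆ R := filter_subset _ _
  have hBd : ∀ w ∈ B, (nb G B w).card ≤ L := by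
    intro w hw
    refine le_trans (card_le_card ?_) (mem_filter.1 hw).2
    intro x hx
    exact mem_nb.2 ⟨hBR (mem_nb.1 hx).1, (mem_nb.1 hx).2⟩
  obtain ⟨D4, p4, q4, r4⟩ := highHall (t := t) hT0 hF hN hAR hBR
    (fun u hu => lowdeg hF hN (le_of_eq rfl) (mem_filter.1 hu).2)
  obtain ⟨Z, U, b1, b2, b3, b4, b5, b6⟩ := iter (L2 := L2) hF hN hBR hBd (by omega) (by omega) hC t
    (by omega)
  obtain ⟨D2, Rp, p2, q2, s2, t2, r2⟩ := reps (B := B) (U := U) (L2 := L2) hT0 hC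
    (fun i : Fin t => Z i) (fun i x hx => by convert b6 i i.2 x hx) (by
      intro w hw
      have k1 : nb G univ w ⊆ (nb G (P \ U) w ∪ nb G U w) ∪ nb G R w := by
        intro x hx
        have r := (mem_nb.1 hx).2
        by_cases h1 : x ∈ P
        · by_cases h2 : x ∈ U
          · exact mem_union_left _ (mem_union_right _ (mem_nb.2 ⟨h2, r⟩))
          · exact mem_union_left _ (mem_union_left _ (mem_nb.2 ⟨mem_sdiff.2 ⟨h1, h2⟩, r⟩))
        · exact mem_union_right _ (mem_nb.2 ⟨mem_sdiff.2 ⟨mem_univ _, h1⟩, r⟩)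
      have e1 := card_le_card k1
      have e2 := card_union_le (nb G (P \ U) w ∪ nb G U w) (nb G R w)
      have e3 := card_union_le (nb G (P \ U) w) (nb G U w)
      have e4 := b5 w hw
      have e5 := (mem_filter.1 hw).2
      have e6 := hd w
      rw [hb] at e6
      show T * (T * (t * L2) + 1) ≤ (nb G (P \ U) w).card
      omega)
  obtain ⟨D3, p3, q3, r3⟩ := rain (t := t) (U := U ∪ Rp) hC (by
    intro X hX
    have k1 : X ⊆ (X \ (U ∪ Rp) ∪ X ∩ U) ∪ X ∩ Rp := by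
      intro x hx
      by_cases h1 : x ∈ U
      · exact mem_union_left _ (mem_union_right _ (mem_inter.2 ⟨hx, h1⟩))
      · by_cases h2 : x ∈ Rp
        · exact mem_union_right _ (mem_inter.2 ⟨hx, h2⟩)
        · exact mem_union_left _ (mem_union_left _ (mem_sdiff.2 ⟨hx, by simp [h1, h2]⟩))
    have e1 := card_le_card k1
    have e2 := card_union_le (X \ (U ∪ Rp) ∪ X ∩ U) (X ∩ Rp)
    have e3 := card_union_le (X \ (U ∪ Rp)) (X ∩ U)
    have e4 := b4 X hX
    have e5 := t2 X hX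
    have e6 := hC.1 X hX
    omega)
  have p1 : PD (fun (i : Fin t) v => v ∈ Z i) :=
    fun i j v h1 h2 => Fin.ext (b3 i i.2 j j.2 v h1 h2)
  have p12 := p1.union p2 (fun i j v h1 h2 =>
    (mem_sdiff.1 (s2 (q2 j v h2))).2 (b2 i i.2 h1))
  have p123 := p12.union p3 (fun i j v h1 h2 => (mem_sdiff.1 (q3 j v h2)).2 (by
    rcases h1 with h1 | h1
    · exact mem_union_left _ (b2 i i.2 h1)
    · exact mem_union_right _ (q2 i v h1)))
  have p1234 := p123.union p4 (fun i j v h1 h2 => (mem_sdiff.1 (hBR (q4 j v h2))).2 (by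
    rcases h1 with (h1 | h1) | h1
    · exact b1 (b2 i i.2 h1)
    · exact (mem_sdiff.1 (s2 (q2 i v h1))).1
    · exact (mem_sdiff.1 (q3 i v h1)).1))
  refine ⟨_, p1234, ?_⟩
  intro i w
  by_cases h1 : w ∈ P
  · obtain ⟨v, hv, hw⟩ := r3 w h1 i
    exact ⟨v, Or.inl (Or.inr hv), hw⟩
  · have hwR : w ∈ R := mem_sdiff.2 ⟨mem_univ _, h1⟩
    by_cases h2 : (nb G R w).card ≤ L
    · by_cases h3 : ∀ z ∈ Z i, ¬ G.Adj z w
      · obtain ⟨v, hv, hw⟩ := r2 w (mem_filter.2 ⟨hwR, h2⟩) i h3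
        exact ⟨v, Or.inl (Or.inl (Or.inr hv)), hw⟩
      · push Not at h3
        obtain ⟨z, hz, hw⟩ := h3
        exact ⟨z, Or.inl (Or.inl (Or.inl hz)), hw.symm⟩
    · obtain ⟨v, hv, hw⟩ := r4 w (mem_filter.2 ⟨hwR, by omega⟩) i
      exact ⟨v, Or.inr hv, hw⟩

end Pool.Agent.H.MP_1aa2a2_co
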